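import Pool.Agent.Work.MP_d0224f_cc.Fibred

/-!
# Fano varieties which are fibred over a curve, in characteristic `p`

Let `X` be a Fano variety of dimension `n` over an algebraically closed field of characteristic
`p > 0`. The data and the published facts which are used are the fields of the structures in
`Pool.Agent.Work.MP_d0224f_na.Defs`, `Pool.Agent.Work.MP_d0224f_cc.Defs` and
`Pool.Agent.Work.MP_d0224f_cc.Curves`. Relative to them:

* if `n ≥ 2`, `X` has Picard number two and there is a nef line bundle `M` with `ν (M) = 1` (that is,
  `X` has a nonconstant morphism to a curve), then `X` is a Mori dream space;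
* the same is true if the Picard group is spanned, up to multiples, by nef line bundles `L`, `M` with
  `L + M` ample, `ν (L), ν (M) > 0` and `ν (L) + ν (M) ≤ n`;
* a nef line bundle `L` is semiample if `dim Z - ν (L | Z) ≤ n - ν (L)` for all closed subvarieties
  `Z`, or if `L` spans an extremal ray of the nef cone and this holds for the `Z` with
  `ν (L | Z) = 0`, or if for some nef `M` with `L + M` ample `ν (L) + ν (M) ≤ n` or `ν (M) = 1` (so,
  for every Picard number, a nef line bundle which is ample on the fibres of a fibration over a
  curve is semiample, and every face of the cone of curves on which the class of a fibre is positive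
  can be contracted).

What is proved here: that `ν (L)` is the dimension of the quotient of `X` by the rational curves
`C` with `L · C = 0` (relative bend and break, `Pool.NA.dim_le_numDim`); that the nef line bundle
`N` on the base has positive degree on curves and satisfies the criterion of Nakai and Moishezon in
all dimensions (`Pool.CC.Base.strict`, `Pool.CC.Base.ample`); the comparison of numerical dimensions
(`Pool.CC.dim_le_of_complement`); if `L` is big: that all rational curves `C` with `L · C = 0` have
anticanonical degree one and are unibranch, and that no two of them meet (`Pool.CC.Rational.degree`,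
`Pool.CC.Rational.injective`), and that the norms of sections on a fibre descend to the exceptional
divisor without common zeros (`Pool.CC.Norms.semiampleOn`); the exceptional divisor
(`Pool.CC.Rational.exists_exceptional`); the nef, effective and movable cones; Gordan's lemma; the
Mori dream space property.
-/

namespace Pool.Agent.Results.MP_d0224f_ag.CurveFibrations

open Pool.NA Pool.CC

variable {k : Type} [Field k] {n p : ℕ}

/-- The first statement: Picard number two, fibred over a curve. -/
def FibredDream (X : FanoCurves k n p) : Prop :=
  ∀ M, 2 ≤ n → X.Nef M → X.numDim M (-X.K) = 1 →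
    (∀ D : X.Pic, ∃ (m : ℕ) (a b : ℤ), 0 < m ∧ m • D = a • X.K + b • M) →
      X.toFanoVar.MoriDream

/-- The second statement: Picard number two, nef line bundles `L`, `M` with
`ν (L) + ν (M) ≤ n`. -/
def ComplementDream (X : FanoCurves k n p) (A : X.Pic) : Prop :=
  ∀ L M, X.Nef L → X.Nef M → X.Ample (L + M) → X.numDim L A + X.numDim M A ≤ n →
    0 < X.numDim L A → 0 < X.numDim M A →
    (∀ D : X.Pic, ∃ (m : ℕ) (a b : ℤ), 0 < m ∧ m • D = a • L + b • M) →
      X.toFanoVar.MoriDream

/-- There is a nef line bundle `M` with `L + M` ample, and `ν (L) + ν (M) ≤ n` or `ν (M) = 1`. -/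
def HasComplement (X : FanoCurves k n p) (A L : X.Pic) : Prop :=
  ∃ M, X.Nef M ∧ X.Ample (L + M) ∧ (X.numDim L A + X.numDim M A ≤ n ∨ X.numDim M A = 1)

/-- The third statement: nef line bundles which are semiample. -/
def SemiampleCriteria (X : FanoCurves k n p) (A : X.Pic) : Prop :=
  ∀ L, X.Nef L → (X.Equidim L A ∨ (X.Extremal L ∧ X.Equidim₀ L A) ∨ HasComplement X A L) →
    X.Semiample L

theorem result [IsAlgClosed k] [Fact p.Prime] [CharP k p]
    (X : FanoCurves k n p) (A : X.Pic) (hA : X.Ample A) :
    FibredDream X ∧ ComplementDream X A ∧ SemiampleCriteria X A := by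
  have hp : 2 ≤ p := (Fact.out : p.Prime).two_le
  refine ⟨fun M hn hM hν htwo => moriDream_fibred hp X hn hM hν htwo,
    fun L M hL hM hLM h h1 h2 htwo => moriDream_two hp X.toFanoSub hA hL hM hLM h h1 h2 htwo,
    fun L hL h => ?_⟩
  rcases h with h | h | ⟨M, hM, hLM, h | hν⟩
  · exact semiample_of_equidim hp X.toFanoSub L A hL hA (Or.inl h)
  · exact semiample_of_equidim hp X.toFanoSub L A hL hA (Or.inr h)
  · exact semiample_of_equidim hp X.toFanoSub L A hL hA
      (Or.inl (equidim_of_complement X.toFanoSub hL hM hA hLM h))
  · exact semiample_fibred hp X hL hM hA hLM hν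

end Pool.Agent.Results.MP_d0224f_ag.CurveFibrations
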