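import Pool.Agent.Work.MP_d0224f_na.Dream

/-!
# Fano varieties in characteristic `p` all of whose prime divisors are nef

Let `X` be a Fano variety over an algebraically closed field `k` of characteristic `p > 0`. The data
and the published facts which are used are the fields of the structures in
`Pool.Agent.Work.MP_d0224f_na.Defs`. Relative to them:

* a nef line bundle `L` is semiample if no prime divisor is negative on an extremal ray on which
  `L` is zero, and `ν (L) ≤ 2`, or `ν (L) ≤ 3` and `k` is an algebraic closure of a finite field;
* if all prime divisors of `X` are nef, then `X` is a Mori dream space provided that the nef line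
  bundles which are not ample have numerical dimension at most two, or at most three if `k` is an
  algebraic closure of a finite field; in particular every Fano fourfold over an algebraic closure
  of a finite field all of whose prime divisors are nef is a Mori dream space.

What is proved here: that `ν (L)` is the dimension of the quotient by the rational curves `C` with
`L · C = 0` (`Pool.NA.dim_le_numDim`, relative bend and break); the Hodge index arguments on `X` and
on the surfaces in the base (`Pool.NA.PVar.no_divisor`, `Pool.NA.CycFam.trivial_of_three`);
semiampleness; Kodaira's lemma implies that nef line bundles which are not ample are not big;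
Gordan's lemma; the Mori dream space property.
-/

namespace Pool.Agent.Results.MP_d0224f_ag.FibreTypeDream

open Pool.NA

theorem result {k : Type} [Field k] [IsAlgClosed k] {p : ℕ} [Fact p.Prime] [CharP k p] {n : ℕ}
    (X : FanoVar k n p) (A : X.Pic) (hA : X.Ample A) :
    (∀ L, X.Nef L → (∀ C ∈ X.rays, X.deg C L = 0 → ∀ W, 0 ≤ X.deg C (X.Δ.cls W)) →
      (X.numDim L A ≤ 2 ∨ (OverFp k ∧ X.numDim L A ≤ 3)) → X.Semiample L) ∧
    ((∀ W, X.Nef (X.Δ.cls W)) →
      ((∀ L, X.Nef L → ¬ X.Ample L →
        X.numDim L A ≤ 2 ∨ (OverFp k ∧ X.numDim L A ≤ 3)) ∨ (n = 4 ∧ OverFp k)) →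
      X.MoriDream) := by
  have hp : 2 ≤ p := (Fact.out : p.Prime).two_le
  refine ⟨fun L hL hray hν => semiample_of_fibre_type hp X L A hL hA hray hν, ?_⟩
  rintro hdiv (h | ⟨rfl, hk⟩)
  · exact moriDream hp X A hA hdiv h
  · exact fourfolds hp X hk hdiv

end Pool.Agent.Results.MP_d0224f_ag.FibreTypeDream
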