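import Pool.Agent.Work.MP_d0224f_na.Dream

/-!
# Abundance for nef divisors on Fano varieties in characteristic `p`

Let `X` be a smooth projective variety of dimension `n` over an algebraically closed field `k` of
characteristic `p > 0` and `L` a nef line bundle such that `a L - b K_X` is ample for some `a ≥ 0`
and `b > 0` (every nef `L` if `X` is a Fano variety). The data and the published facts which are
used are the fields of the structures in `Pool.Agent.Work.MP_d0224f_na.Defs`. Relative to them
`κ (L) ≥ ν (L)`, hence `κ (L) = ν (L)`, and this number is the dimension of the quotient of `X` by
the rational curves `C` with `L · C = 0`.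

What is proved here: the growth of the intersection numbers which gives curves of small slope
(`Pool.NA.small_slope`); the relative bend and break argument over the quotient, with the minimal
lift, the numerical part, and the walk to the first horizontal rational curve
(`Pool.NA.dim_le_numDim`); abundance.
-/

namespace Pool.Agent.Results.MP_d0224f_ag.NefAbundance

open Pool.NA

theorem result {k : Type} [Field k] [IsAlgClosed k] {p : ℕ} [Fact p.Prime] [CharP k p] {n : ℕ}
    (X : SmoothVar k n p) (L A : X.Pic) (hL : X.Nef L) (hA : X.Ample A) (a b : ℕ) (hb : 0 < b)
    (hH : X.Ample (a • L - b • X.K)) :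
    Grows (fun m => X.h0 (m • L)) (X.numDim L A) ∧
      ∃ F : Fibration X.toPVar X.K p, IsQuotient F L ∧ F.t = X.numDim L A :=
  abundance (Fact.out : p.Prime).two_le X L A hL hA a b hb hH

end Pool.Agent.Results.MP_d0224f_ag.NefAbundance
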