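import Pool.Agent.Work.MP_d0224f_ag.Proof

/-!
# Fano varieties with torus action in positive characteristic are Mori dream spaces

Let `X` be a smooth Fano variety of dimension `n` over an algebraically closed field `k` of
characteristic `p > 0` with an effective action of a torus of rank `r` (trivial scheme-theoretic
kernel; divide by the kernel). If `n - r ≤ 2`, or if
`n - r = 3` and `p > 5`, then `X` is a Mori dream space. For example every Fano fourfold with a
nontrivial action of the multiplicative group is a Mori dream space if `p > 5`, and every Fano
`n`-fold with an effective action of a torus of rank `n - 2` in every characteristic.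

The data and the published facts which are used are the fields of the structures `Models` and
`TorusFano` in `Pool.Agent.Work.MP_d0224f_ag.Defs`. What is proved here:

* general points of `X` are stable for the canonical linearisation of `- K_X`;
* the pair `(Q, B)` on the quotient `Q`, defined by the invariant anti-pluricanonical sections, is
  klt (linear programming duality; `Pool.TF.farkas` is proved by Fourier-Motzkin elimination), and
  its log discrepancy at the valuation under a vertical divisor `t` of `X` is at most `1 / mu t`
  (`Pool.TF.TorusFano.exists_quotient`, in every dimension and characteristic, also if `p`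
  divides `mu t`);
* the model `Y` of `Q` whose prime divisors are exactly those seen by `X` is of Fano type
  (`Pool.TF.TorusFano.exists_fano_type`);
* the multisection rings of `X` are piecewise linear section rings over `Y`, and all these are
  finitely generated (`Pool.TF.gordan`, `Pool.TF.pl_fg`).

No vanishing theorem, lifting or Frobenius splitting is used; `X` need not be Frobenius split
(Totaro 2019: Kodaira vanishing fails for some Fano varieties in positive characteristic), and no
minimal model program in dimension four or more.
-/

namespace Pool.Agent.Results.MP_d0224f_ag.TorusActions

open Pool.TF

theorem result {k F V : Type} [Field k] [IsAlgClosed k] [Field F] [Algebra k F] {p : ℕ}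
    [Fact p.Prime] [CharP k p] (ν : Vals k F V) {n r : ℕ} (X : TorusFano ν n r p)
    (h : n - r ≤ 2 ∨ (n - r = 3 ∧ 5 < p)) :
    X.MoriDream ∧ ∀ (s : ℕ) (B : Fin s → (X.H ⊕ X.T) →₀ ℤ), (X.toTVar.coxFam B).alg.FG :=
  ⟨X.hu_keel fun _ B => X.cox_fg h B, fun _ B => X.cox_fg h B⟩

end Pool.Agent.Results.MP_d0224f_ag.TorusActions
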